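import Mathlib

/-!
Digraphs are given by their arc relation `A : V → V → Prop` on a finite vertex type.
-/

namespace Pool.Agent.W895653

open Relation

/-- The set `S` induces a strongly connected subdigraph: for every ordered pair of vertices of `S`
there is a directed path from the first to the second inside `S`. -/
def StrongOn {V : Type*} (A : V → V → Prop) (S : Set V) : Prop :=
  ∀ u ∈ S, ∀ v ∈ S, ReflTransGen (fun x y => x ∈ S ∧ y ∈ S ∧ A x y) u v

/-- `k`-strongly connected: at least `k + 1` vertices, and deleting any set of fewer than `k`
vertices leaves a strongly connected digraph. -/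
def KStrong {V : Type*} [Fintype V] (A : V → V → Prop) (k : ℕ) : Prop :=
  k + 1 ≤ Fintype.card V ∧ ∀ S : Finset V, S.card + 1 ≤ k → StrongOn A {v | v ∉ S}

/-- The digraph contains a strong complete minor on `r` vertices: `r` pairwise disjoint nonempty
vertex sets, each inducing a strongly connected subdigraph, with an arc from each of them to each
other one. -/
def HasStrongMinor {V : Type*} (A : V → V → Prop) (r : ℕ) : Prop :=
  ∃ X : Fin r → Set V, (∀ i, (X i).Nonempty) ∧ (∀ i, StrongOn A (X i)) ∧
    (∀ i j, i ≠ j → Disjoint (X i) (X j)) ∧
    ∀ i j, i ≠ j → ∃ x ∈ X i, ∃ y ∈ X j, A x y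

end Pool.Agent.W895653
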