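import Pool.Agent.W_895653_co.Defs

namespace Pool.Agent.W895653

open Relation

variable {V : Type*} [Fintype V] {A : V → V → Prop}

/-- adjacency inside a set -/
def Ins (A : V → V → Prop) (S : Set V) : V → V → Prop := fun x y => x ∈ S ∧ y ∈ S ∧ A x y

omit [Fintype V] in
theorem Ins.mono {S T : Set V} (h : S ⊆ T) {u v : V}
    (p : ReflTransGen (Ins A S) u v) : ReflTransGen (Ins A T) u v :=
  ReflTransGen.mono (fun _ _ hab => ⟨h hab.1, h hab.2.1, hab.2.2⟩) _ _ p

/-- vertices reachable from `u` in at most `i` steps outside `U` -/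
def ball (A : V → V → Prop) (U : Set V) (u : V) : ℕ → Set V
  | 0 => {u}
  | (i + 1) => {y | y ∈ ball A U u i ∨ (y ∉ U ∧ ∃ x ∈ ball A U u i, A x y)}

omit [Fintype V] in
theorem ball_succ_subset (U : Set V) (u : V) (i : ℕ) :
    ball A U u i ⊆ ball A U u (i + 1) := fun _ h => Or.inl h

omit [Fintype V] in
theorem mem_ball_self (U : Set V) (u : V) (i : ℕ) : u ∈ ball A U u i := by
  induction i with
  | zero => exact rfl
  | succ i ih => exact Or.inl ih

omit [Fintype V] in
/-- a walk from `u` to a vertex of the ball gives a small set joining them -/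
theorem exists_path (U : Finset V) (u : V) (hu : u ∉ U) (i : ℕ) :
    ∀ v ∈ ball A (U : Set V) u i, ∃ P : Finset V, P.card ≤ i + 1 ∧ Disjoint P U ∧ u ∈ P ∧ v ∈ P ∧
      ∀ x ∈ P, ReflTransGen (Ins A (P : Set V)) u x ∧ ReflTransGen (Ins A (P : Set V)) x v := by
  classical
  induction i with
  | zero =>
    intro v hv
    have hv' : v = u := hv
    subst hv'
    refine ⟨{v}, by simp, by simpa using hu, by simp, by simp, ?_⟩
    intro x hx
    simp only [Finset.mem_singleton] at hx
    subst hx
    exact ⟨ReflTransGen.refl, ReflTransGen.refl⟩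
  | succ i ih =>
    intro v hv
    rcases hv with hv | ⟨hvU, x, hx, hxv⟩
    · obtain ⟨P, h1, h2⟩ := ih v hv
      exact ⟨P, by omega, h2⟩
    · obtain ⟨P, hc, hd, huP, hxP, hP⟩ := ih x hx
      have hsub : (P : Set V) ⊆ ((insert v P : Finset V) : Set V) := by
        intro a ha
        simp only [Finset.coe_insert, Set.mem_insert_iff]
        exact Or.inr ha
      have hstep : ReflTransGen (Ins A ((insert v P : Finset V) : Set V)) x v := by
        apply ReflTransGen.single
        refine ⟨hsub hxP, ?_, hxv⟩
        simp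
      refine ⟨insert v P, (Finset.card_insert_le _ _).trans (by omega), ?_, ?_, ?_, ?_⟩
      · rw [Finset.disjoint_insert_left]
        exact ⟨by simpa using hvU, hd⟩
      · exact Finset.mem_insert_of_mem huP
      · exact Finset.mem_insert_self _ _
      · intro y hy
        rw [Finset.mem_insert] at hy
        rcases hy with rfl | hy
        · exact ⟨(Ins.mono hsub (hP x hxP).1).trans hstep, ReflTransGen.refl⟩
        · exact ⟨Ins.mono hsub (hP y hy).1, (Ins.mono hsub (hP y hy).2).trans hstep⟩

/-- balls grow by at least `s` vertices as long as they miss `v` -/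
theorem ball_card (k s : ℕ) (hk : KStrong A k) (hs : 1 ≤ s) (U : Finset V) (hU : U.card + s ≤ k)
    (u v : V) (hu : u ∉ U) (hv : v ∉ U) (i : ℕ) (hvi : v ∉ ball A (U : Set V) u i) :
    i * s + 1 ≤ (ball A (U : Set V) u i).ncard := by
  classical
  induction i with
  | zero => simp [ball]
  | succ i ih =>
    have hvi' : v ∉ ball A (U : Set V) u i := fun h => hvi (Or.inl h)
    have h1 := ih hvi'
    set B := ball A (U : Set V) u i with hB
    set B' := ball A (U : Set V) u (i + 1) with hB'
    have hsub : B ⊆ B' := ball_succ_subset _ _ _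
    have hdiff : (B' \ B).ncard + B.ncard = B'.ncard :=
      Set.ncard_sdiff_add_ncard_of_subset hsub (Set.toFinite _)
    by_contra hcon
    have hlt : (B' \ B).ncard < s := by
      have : (i + 1) * s = i * s + s := by ring
      omega
    have hfin : (B' \ B).Finite := Set.toFinite _
    set L : Finset V := hfin.toFinset with hL
    have hLc : L.card = (B' \ B).ncard := by
      rw [hL, Set.ncard_eq_toFinset_card _ hfin]
    have hcard : (U ∪ L).card + 1 ≤ k := by
      have := Finset.card_union_le U L
      omega
    have hst := hk.2 (U ∪ L) hcard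
    have huS : u ∈ {w | w ∉ U ∪ L} := by
      simp only [Set.mem_ofPred_eq, Finset.mem_union, not_or]
      refine ⟨hu, ?_⟩
      rw [hL, Set.Finite.mem_toFinset]
      exact fun h => h.2 (mem_ball_self _ _ _)
    have hvS : v ∈ {w | w ∉ U ∪ L} := by
      simp only [Set.mem_ofPred_eq, Finset.mem_union, not_or]
      refine ⟨hv, ?_⟩
      rw [hL, Set.Finite.mem_toFinset]
      exact fun h => hvi h.1
    have hpath := hst u huS v hvS
    have key : ∀ w, ReflTransGen (fun x y => x ∈ {w | w ∉ U ∪ L} ∧ y ∈ {w | w ∉ U ∪ L} ∧ A x y) u w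
        → w ∈ B := by
      intro w hw
      induction hw with
      | refl => exact mem_ball_self _ _ _
      | tail _ hstep ih =>
        rename_i a b _
        obtain ⟨_, hb, hab⟩ := hstep
        simp only [Set.mem_ofPred_eq, Finset.mem_union, not_or] at hb
        by_contra hbB
        apply hb.2
        rw [hL, Set.Finite.mem_toFinset]
        refine ⟨?_, hbB⟩
        exact Or.inr ⟨by simpa using hb.1, a, ih, hab⟩
    exact hvi' (key v hpath)

/-- short connecting sets in a highly connected digraph -/
theorem short_path (k s : ℕ) (hk : KStrong A k) (hs : 1 ≤ s) (U : Finset V) (hU : U.card + s ≤ k)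
    (u v : V) (hu : u ∉ U) (hv : v ∉ U) :
    ∃ P : Finset V, P.card ≤ Fintype.card V / s + 2 ∧ Disjoint P U ∧ u ∈ P ∧ v ∈ P ∧
      ∀ x ∈ P, ReflTransGen (Ins A (P : Set V)) u x ∧ ReflTransGen (Ins A (P : Set V)) x v := by
  classical
  have hmem : v ∈ ball A (U : Set V) u (Fintype.card V / s + 1) := by
    by_contra hcon
    have h1 := ball_card k s hk hs U hU u v hu hv _ hcon
    have h2 : (ball A (U : Set V) u (Fintype.card V / s + 1)).ncard ≤ Fintype.card V := by
      have := Set.ncard_le_ncard (Set.subset_univ (ball A (U : Set V) u (Fintype.card V / s + 1)))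
        (Set.toFinite _)
      rwa [Set.ncard_univ, Nat.card_eq_fintype_card] at this
    have h3 : Fintype.card V < (Fintype.card V / s + 1) * s := by
      have := Nat.lt_div_mul_add (a := Fintype.card V) (b := s) (by omega)
      nlinarith
    omega
  obtain ⟨P, h1, h2⟩ := exists_path U u hu _ v hmem
  exact ⟨P, h1, h2⟩

/-- a strongly connected set through prescribed vertices -/
theorem strong_set (k s : ℕ) (hk : KStrong A k) (hs : 1 ≤ s) (U : Finset V) (hU : U.card + s ≤ k)
    (t₀ : V) (ht₀ : t₀ ∉ U) (T : Finset V) (hT : Disjoint T U) :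
    ∃ Y : Finset V, Y.card ≤ 1 + T.card * (2 * (Fintype.card V / s + 2)) ∧ Disjoint Y U ∧ t₀ ∈ Y ∧
      T ⊆ Y ∧ StrongOn A (Y : Set V) := by
  classical
  have hT' : ∀ t ∈ T, t ∉ U := fun t ht h => (Finset.disjoint_left.mp hT ht) h
  have hP : ∀ t : V, ∃ P : Finset V, t ∈ T → (P.card ≤ 2 * (Fintype.card V / s + 2) ∧ Disjoint P U ∧
      t₀ ∈ P ∧ t ∈ P ∧ ∀ x ∈ P, ReflTransGen (Ins A (P : Set V)) t₀ x ∧
        ReflTransGen (Ins A (P : Set V)) x t₀) := by
    intro t
    by_cases ht : t ∈ T
    · obtain ⟨P, a1, a2, a3, a4, a5⟩ := short_path k s hk hs U hU t₀ t ht₀ (hT' t ht)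
      obtain ⟨Q, b1, b2, b3, b4, b5⟩ := short_path k s hk hs U hU t t₀ (hT' t ht) ht₀
      refine ⟨P ∪ Q, fun _ => ⟨(Finset.card_union_le _ _).trans (by omega), ?_, ?_, ?_, ?_⟩⟩
      · rw [Finset.disjoint_union_left]; exact ⟨a2, b2⟩
      · exact Finset.mem_union_left _ a3
      · exact Finset.mem_union_left _ a4
      · have hPs : (P : Set V) ⊆ ((P ∪ Q : Finset V) : Set V) := by
          intro a ha; simp only [Finset.coe_union, Set.mem_union]; exact Or.inl ha
        have hQs : (Q : Set V) ⊆ ((P ∪ Q : Finset V) : Set V) := by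
          intro a ha; simp only [Finset.coe_union, Set.mem_union]; exact Or.inr ha
        intro x hx
        rw [Finset.mem_union] at hx
        rcases hx with hx | hx
        · exact ⟨Ins.mono hPs (a5 x hx).1,
            (Ins.mono hPs (a5 x hx).2).trans (Ins.mono hQs (b5 t b3).2)⟩
        · exact ⟨(Ins.mono hPs (a5 t₀ a3).2).trans (Ins.mono hQs (b5 x hx).1),
            Ins.mono hQs (b5 x hx).2⟩
    · exact ⟨∅, fun h => absurd h ht⟩
  choose P hP using hP
  refine ⟨insert t₀ (T.biUnion P), ?_, ?_, ?_, ?_, ?_⟩
  · have h1 := Finset.card_insert_le t₀ (T.biUnion P)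
    have h2 : (T.biUnion P).card ≤ T.card * (2 * (Fintype.card V / s + 2)) :=
      Finset.card_biUnion_le_card_mul _ _ _ (fun t ht => (hP t ht).1)
    omega
  · rw [Finset.disjoint_insert_left]
    refine ⟨ht₀, ?_⟩
    rw [Finset.disjoint_biUnion_left]
    exact fun t ht => (hP t ht).2.1
  · exact Finset.mem_insert_self _ _
  · intro t ht
    exact Finset.mem_insert_of_mem (Finset.mem_biUnion.mpr ⟨t, ht, (hP t ht).2.2.2.1⟩)
  · set Y := insert t₀ (T.biUnion P) with hY
    have hsub : ∀ t ∈ T, (P t : Set V) ⊆ (Y : Set V) := by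
      intro t ht a ha
      rw [hY]
      simp only [Finset.coe_insert, Set.mem_insert_iff]
      right
      exact Finset.mem_coe.mpr (Finset.mem_biUnion.mpr ⟨t, ht, ha⟩)
    have key : ∀ x ∈ (Y : Set V), ReflTransGen (Ins A (Y : Set V)) t₀ x ∧
        ReflTransGen (Ins A (Y : Set V)) x t₀ := by
      intro x hx
      rw [hY, Finset.mem_coe, Finset.mem_insert] at hx
      rcases hx with rfl | hx
      · exact ⟨ReflTransGen.refl, ReflTransGen.refl⟩
      · obtain ⟨t, ht, hxt⟩ := Finset.mem_biUnion.mp hx
        have := (hP t ht).2.2.2.2 x hxt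
        exact ⟨Ins.mono (hsub t ht) this.1, Ins.mono (hsub t ht) this.2⟩
    intro u hu v hv
    exact ((key u hu).2).trans ((key v hv).1)

/-- out- and in-neighbours outside a small set -/
theorem exists_out (k : ℕ) (hk : KStrong A k) (hirr : ∀ v, ¬ A v v) (U : Finset V)
    (hU : U.card + 1 ≤ k) (y : V) : (∃ z, z ∉ U ∧ A y z) ∧ (∃ z, z ∉ U ∧ A z y) := by
  classical
  -- delete `U \ {y}`
  have hc : (U.erase y).card + 1 ≤ k := by
    have := Finset.card_erase_le (s := U) (a := y); omega
  have hst := hk.2 (U.erase y) hc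
  have hex : ∃ w, w ∉ U ∧ w ≠ y := by
    by_contra hcon
    push Not at hcon
    have : (Finset.univ : Finset V) ⊆ insert y U := by
      intro w _
      by_cases hw : w ∈ U
      · exact Finset.mem_insert_of_mem hw
      · rw [hcon w hw]; exact Finset.mem_insert_self _ _
    have h2 := (Finset.card_le_card this).trans (Finset.card_insert_le _ _)
    rw [Finset.card_univ] at h2
    have := hk.1
    omega
  obtain ⟨w, hwU, hwy⟩ := hex
  have hy : y ∈ {v | v ∉ U.erase y} := by simp
  have hw : w ∈ {v | v ∉ U.erase y} := by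
    simp only [Set.mem_ofPred_eq, Finset.mem_erase, not_and]
    exact fun _ => hwU
  constructor
  · have hp := hst y hy w hw
    rcases ReflTransGen.cases_head hp with h | ⟨z, hz, _⟩
    · exact absurd h.symm hwy
    · refine ⟨z, ?_, hz.2.2⟩
      intro hzU
      have h3 := hz.2.1
      simp only [Set.mem_ofPred_eq, Finset.mem_erase, not_and] at h3
      by_cases hzy : z = y
      · exact hirr y (hzy ▸ hz.2.2)
      · exact h3 hzy hzU
  · have hp := hst w hw y hy
    rcases ReflTransGen.cases_tail hp with h | ⟨z, _, hz⟩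
    · exact absurd h.symm hwy
    · refine ⟨z, ?_, hz.2.2⟩
      intro hzU
      have h3 := hz.1
      simp only [Set.mem_ofPred_eq, Finset.mem_erase, not_and] at h3
      by_cases hzy : z = y
      · exact hirr y (hzy ▸ hz.2.2)
      · exact h3 hzy hzU

/-- main greedy construction -/
theorem build [DecidableEq V] (k s : ℕ) (hk : KStrong A k) (hirr : ∀ v, ¬ A v v) (hs : 1 ≤ s) (r : ℕ)
    (c : ℕ) (hc : c = 2 * (Fintype.card V / s + 2)) (hbig : c * r ^ 2 + s ≤ k) :
    ∀ j ≤ r, ∃ (Y : Fin j → Finset V) (y : Fin j → V),
      (∀ i, y i ∈ Y i) ∧ (∀ i, StrongOn A (Y i : Set V)) ∧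
      (∀ i i', i ≠ i' → Disjoint (Y i) (Y i')) ∧
      (∀ i i', i ≠ i' → ∃ x ∈ Y i, ∃ z ∈ Y i', A x z) ∧
      (Finset.univ.biUnion Y).card ≤ c * j ^ 2 := by
  have hn : 1 ≤ Fintype.card V := by have := hk.1; omega
  intro j
  induction j with
  | zero =>
    intro _
    refine ⟨fun i => i.elim0, fun i => i.elim0, fun i => i.elim0, fun i => i.elim0,
      fun i => i.elim0, fun i => i.elim0, by simp⟩
  | succ j ih =>
    intro hj
    obtain ⟨Y, y, h1, h2, h3, h4, h5⟩ := ih (by omega)
    set U := Finset.univ.biUnion Y with hUdef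
    have hcj : c * j ^ 2 + s ≤ k := by
      have : c * j ^ 2 ≤ c * r ^ 2 := Nat.mul_le_mul_left _ (Nat.pow_le_pow_left (by omega) 2)
      omega
    have hU : U.card + s ≤ k := by omega
    have hU1 : U.card + 1 ≤ k := by omega
    have hout : ∀ i : Fin j, ∃ z, z ∉ U ∧ A (y i) z := fun i => (exists_out k hk hirr U hU1 (y i)).1
    have hin : ∀ i : Fin j, ∃ z, z ∉ U ∧ A z (y i) := fun i => (exists_out k hk hirr U hU1 (y i)).2
    choose zo hzo using hout
    choose zi hzi using hin
    have hex : ∃ w, w ∉ U := by
      by_contra hcon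
      push Not at hcon
      have : (Finset.univ : Finset V) ⊆ U := fun w _ => hcon w
      have h6 := Finset.card_le_card this
      rw [Finset.card_univ] at h6
      have := hk.1
      omega
    -- choose the base point
    obtain ⟨t₀, ht₀, hcount⟩ : ∃ t₀, t₀ ∉ U ∧ True := ⟨hex.choose, hex.choose_spec, trivial⟩
    set T : Finset V := Finset.univ.image zo ∪ Finset.univ.image zi with hT
    have hTcard : T.card ≤ 2 * j := by
      have a : T.card ≤ _ := Finset.card_union_le (Finset.univ.image zo) (Finset.univ.image zi)
      have b : (Finset.univ.image zo).card ≤ j := by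
        have := Finset.card_image_le (s := (Finset.univ : Finset (Fin j))) (f := zo)
        simpa using this
      have d : (Finset.univ.image zi).card ≤ j := by
        have := Finset.card_image_le (s := (Finset.univ : Finset (Fin j))) (f := zi)
        simpa using this
      omega
    have hTU : Disjoint T U := by
      rw [hT, Finset.disjoint_union_left]
      constructor
      · rw [Finset.disjoint_left]
        intro a ha
        obtain ⟨i, _, rfl⟩ := Finset.mem_image.mp ha
        exact (hzo i).1
      · rw [Finset.disjoint_left]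
        intro a ha
        obtain ⟨i, _, rfl⟩ := Finset.mem_image.mp ha
        exact (hzi i).1
    obtain ⟨Z, z1, z2, z3, z4, z5⟩ := strong_set k s hk hs U hU t₀ ht₀ T hTU
    have hdisj : ∀ i : Fin j, Disjoint (Y i) Z := by
      intro i
      rw [Finset.disjoint_left]
      intro a ha haZ
      have : a ∈ U := by
        rw [hUdef]; exact Finset.mem_biUnion.mpr ⟨i, Finset.mem_univ _, ha⟩
      exact (Finset.disjoint_left.mp z2 haZ) this
    refine ⟨Fin.snoc Y Z, Fin.snoc y t₀, ?_, ?_, ?_, ?_, ?_⟩
    · intro i
      refine Fin.lastCases ?_ (fun i => ?_) i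
      · simpa using z3
      · simpa using h1 i
    · intro i
      refine Fin.lastCases ?_ (fun i => ?_) i
      · simpa using z5
      · simpa using h2 i
    · intro i i'
      refine Fin.lastCases ?_ (fun i => ?_) i
      · refine Fin.lastCases ?_ (fun i' => ?_) i'
        · intro h; exact absurd rfl h
        · intro _
          simpa using (hdisj i').symm
      · refine Fin.lastCases ?_ (fun i' => ?_) i'
        · intro _
          simpa using hdisj i
        · intro h
          simpa using h3 i i' (fun e => h (by rw [e]))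
    · intro i i'
      refine Fin.lastCases ?_ (fun i => ?_) i
      · refine Fin.lastCases ?_ (fun i' => ?_) i'
        · intro h; exact absurd rfl h
        · intro _
          refine ⟨zi i', ?_, y i', ?_, (hzi i').2⟩
          · simp only [Fin.snoc_last]
            apply z4
            rw [hT]
            exact Finset.mem_union_right _ (Finset.mem_image_of_mem _ (Finset.mem_univ _))
          · simpa using h1 i'
      · refine Fin.lastCases ?_ (fun i' => ?_) i'
        · intro _
          refine ⟨y i, ?_, zo i, ?_, (hzo i).2⟩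
          · simpa using h1 i
          · simp only [Fin.snoc_last]
            apply z4
            rw [hT]
            exact Finset.mem_union_left _ (Finset.mem_image_of_mem _ (Finset.mem_univ _))
        · intro h
          have := h4 i i' (fun e => h (by rw [e]))
          simpa using this
    · have hun : (Finset.univ.biUnion (Fin.snoc Y Z : Fin (j + 1) → Finset V)) ⊆ U ∪ Z := by
        intro a ha
        obtain ⟨i, _, hi⟩ := Finset.mem_biUnion.mp ha
        revert hi
        refine Fin.lastCases ?_ (fun i => ?_) i
        · intro hi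
          simp only [Fin.snoc_last] at hi
          exact Finset.mem_union_right _ hi
        · intro hi
          simp only [Fin.snoc_castSucc] at hi
          exact Finset.mem_union_left _ (Finset.mem_biUnion.mpr ⟨i, Finset.mem_univ _, hi⟩)
      have hcc := (Finset.card_le_card hun).trans (Finset.card_union_le _ _)
      have hZ : Z.card ≤ 1 + (2 * j) * c := by
        rw [← hc] at z1
        exact z1.trans (Nat.add_le_add_left (Nat.mul_le_mul_right c hTcard) 1)
      have hc1 : 1 ≤ c := by
        rw [hc]
        generalize Fintype.card V / s = w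
        omega
      calc (Finset.univ.biUnion (Fin.snoc Y Z : Fin (j + 1) → Finset V)).card
          ≤ U.card + Z.card := hcc
        _ ≤ c * j ^ 2 + (1 + (2 * j) * c) := Nat.add_le_add h5 hZ
        _ ≤ c * (j + 1) ^ 2 := by nlinarith

/-- If `D` is `k`-strongly connected with `n` vertices and `16 r² n ≤ k²`, then it contains a strong
complete minor on `r + 1` vertices. -/
theorem sqrt_bound (r k : ℕ) (hirr : ∀ v, ¬ A v v) (hk : KStrong A k)
    (h : 16 * r ^ 2 * Fintype.card V ≤ k ^ 2) : HasStrongMinor A (r + 1) := by
  classical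
  have hn := hk.1
  have hnpos : 1 ≤ Fintype.card V := by omega
  rcases Nat.eq_zero_or_pos r with hr | hr
  · subst hr
    have : Nonempty V := Fintype.card_pos_iff.mp (by omega)
    obtain ⟨v⟩ := this
    refine ⟨fun _ => {v}, fun _ => ⟨v, rfl⟩, fun _ => ?_, fun i j hij => ?_, fun i j hij => ?_⟩
    · intro a ha b hb
      rw [Set.mem_singleton_iff] at ha hb
      subst ha; subst hb
      exact ReflTransGen.refl
    · exact absurd (Fin.ext (by omega)) hij
    · exact absurd (Fin.ext (by omega)) hij
  · have hk1 : 1 ≤ k := by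
      by_contra hcon
      have : k = 0 := by omega
      subst this
      have : 1 ≤ 16 * r ^ 2 * Fintype.card V := by
        have h1 : 1 ≤ r ^ 2 := Nat.one_le_pow _ _ hr
        nlinarith
      simp at h
      omega
    set s := k - k / 2 with hs
    have hs1 : 1 ≤ s := by omega
    have h2s : k ≤ 2 * s := by omega
    set q := Fintype.card V / s with hq
    have hqs : q * s ≤ Fintype.card V := Nat.div_mul_le_self _ _
    have hmain : 4 * (q + 2) * r ^ 2 ≤ k := by
      have h1 : (4 * (q + 2) * r ^ 2) * k ≤ k * k := by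
        calc (4 * (q + 2) * r ^ 2) * k = 4 * r ^ 2 * (q * k) + 8 * r ^ 2 * k := by ring
          _ ≤ 4 * r ^ 2 * (q * (2 * s)) + 8 * r ^ 2 * Fintype.card V := by
              apply Nat.add_le_add
              · exact Nat.mul_le_mul_left _ (Nat.mul_le_mul_left _ h2s)
              · exact Nat.mul_le_mul_left _ (by omega)
          _ = 8 * r ^ 2 * (q * s) + 8 * r ^ 2 * Fintype.card V := by ring
          _ ≤ 8 * r ^ 2 * Fintype.card V + 8 * r ^ 2 * Fintype.card V :=
              Nat.add_le_add_right (Nat.mul_le_mul_left _ hqs) _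
          _ = 16 * r ^ 2 * Fintype.card V := by ring
          _ ≤ k ^ 2 := h
          _ = k * k := by ring
      exact Nat.le_of_mul_le_mul_right h1 (by omega)
    have hbig : (2 * (q + 2)) * r ^ 2 + s ≤ k := by
      have : 2 * ((2 * (q + 2)) * r ^ 2) ≤ k := by
        calc 2 * ((2 * (q + 2)) * r ^ 2) = 4 * (q + 2) * r ^ 2 := by ring
          _ ≤ k := hmain
      omega
    obtain ⟨Y, y, h1, h2, h3, h4, h5⟩ := build k s hk hirr hs1 r (2 * (q + 2)) (by rw [hq]) hbig r le_rfl
    set U := Finset.univ.biUnion Y with hUdef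
    have hU1 : U.card + 1 ≤ k := by omega
    have hst := hk.2 U hU1
    have hex : ∃ w, w ∉ U := by
      by_contra hcon
      push Not at hcon
      have : (Finset.univ : Finset V) ⊆ U := fun w _ => hcon w
      have h6 := Finset.card_le_card this
      rw [Finset.card_univ] at h6
      omega
    have hsubU : ∀ i, ∀ a ∈ Y i, a ∈ U := fun i a ha => by
      rw [hUdef]; exact Finset.mem_biUnion.mpr ⟨i, Finset.mem_univ _, ha⟩
    refine ⟨Fin.snoc (fun i => (Y i : Set V)) {v | v ∉ U}, ?_, ?_, ?_, ?_⟩
    · intro i
      refine Fin.lastCases ?_ (fun i => ?_) i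
      · simp only [Fin.snoc_last]
        exact hex
      · simp only [Fin.snoc_castSucc]
        exact ⟨y i, h1 i⟩
    · intro i
      refine Fin.lastCases ?_ (fun i => ?_) i
      · simp only [Fin.snoc_last]
        exact hst
      · simp only [Fin.snoc_castSucc]
        exact h2 i
    · intro i i'
      refine Fin.lastCases ?_ (fun i => ?_) i
      · refine Fin.lastCases ?_ (fun i' => ?_) i'
        · intro h; exact absurd rfl h
        · intro _
          simp only [Fin.snoc_last, Fin.snoc_castSucc]
          rw [Set.disjoint_left]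
          intro a ha ha'
          exact ha (hsubU i' a ha')
      · refine Fin.lastCases ?_ (fun i' => ?_) i'
        · intro _
          simp only [Fin.snoc_last, Fin.snoc_castSucc]
          rw [Set.disjoint_left]
          intro a ha ha'
          exact ha' (hsubU i a ha)
        · intro h
          simp only [Fin.snoc_castSucc]
          have := h3 i i' (fun e => h (by rw [e]))
          exact Finset.disjoint_coe.mpr this
    · intro i i'
      refine Fin.lastCases ?_ (fun i => ?_) i
      · refine Fin.lastCases ?_ (fun i' => ?_) i'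
        · intro h; exact absurd rfl h
        · intro _
          simp only [Fin.snoc_last, Fin.snoc_castSucc]
          obtain ⟨z, hz, hzy⟩ := (exists_out k hk hirr U hU1 (y i')).2
          exact ⟨z, hz, y i', h1 i', hzy⟩
      · refine Fin.lastCases ?_ (fun i' => ?_) i'
        · intro _
          simp only [Fin.snoc_last, Fin.snoc_castSucc]
          obtain ⟨z, hz, hyz⟩ := (exists_out k hk hirr U hU1 (y i)).1
          exact ⟨y i, h1 i, z, hz, hyz⟩
        · intro h
          simp only [Fin.snoc_castSucc]
          exact h4 i i' (fun e => h (by rw [e]))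

end Pool.Agent.W895653
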